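import Pool.Agent.X86.GC.Main

set_option autoImplicit false

open MeasureTheory Set
open scoped ENNReal NNReal SchwartzMap

namespace Pool.Agent.Results.MP_95ea62_an.UniformComparison

/-- The Gagliardo seminorm
`[f]_{s,p} = (∫∫ |f(x)-f(y)|^p / |x-y|^(N+sp) dy dx)^(1/p)`, as an element of `[0,∞]`. -/
noncomputable def gagliardo {N : ℕ} (p s : ℝ) (f : EuclideanSpace ℝ (Fin N) → ℂ) : ℝ≥0∞ :=
  (∫⁻ x, ∫⁻ y, ENNReal.ofReal (‖f x - f y‖ ^ p / ‖x - y‖ ^ (N + s * p))) ^ (1 / p)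

/-- The comparison inequality
`min{s,1-s}^(1/p) [f]_{s,p} ≤ C (‖f‖_p + min{t,1-t}^(1/p) [f]_{t,p})`. -/
def Comparison {N : ℕ} (C p s t : ℝ) (f : EuclideanSpace ℝ (Fin N) → ℂ) : Prop :=
  ENNReal.ofReal (min s (1 - s) ^ (1 / p)) * gagliardo p s f ≤
    ENNReal.ofReal C * (eLpNorm f (ENNReal.ofReal p) volume +
      ENNReal.ofReal (min t (1 - t) ^ (1 / p)) * gagliardo p t f)

lemma gagliardo_eq {N : ℕ} (p s : ℝ) (hp : 0 ≤ p) (f : EuclideanSpace ℝ (Fin N) → ℂ) :
    gagliardo p s f = (Pool.Agent.X86.GC.G f p s) ^ (1 / p) := by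
  unfold gagliardo Pool.Agent.X86.GC.G Pool.Agent.X86.GC.wt
  congr 1
  refine lintegral_congr fun x => lintegral_congr fun y => ?_
  rw [div_eq_mul_inv, ENNReal.ofReal_mul (by positivity), Real.rpow_neg (norm_nonneg _),
    ← ENNReal.ofReal_rpow_of_nonneg (norm_nonneg _) hp, ofReal_norm]

/-- Full answer to Q1 (yes): for all `N ≥ 1`, `p ∈ (1,∞)`, `θ ∈ (0,1)` there is a constant `C > 0`
such that the comparison inequality holds for all `θ < s < t < 1` and all Schwartz functions `f`,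
and even for all measurable `f : ℝ^N → ℂ` (both sides being elements of `[0,∞]`). -/
theorem result (N : ℕ) (hN : 1 ≤ N) (p : ℝ) (hp : 1 < p) (θ : ℝ) (hθ : 0 < θ) (_hθ1 : θ < 1) :
    ∃ C : ℝ, 0 < C ∧ ∀ s t : ℝ, θ < s → s < t → t < 1 →
      (∀ f : 𝓢(EuclideanSpace ℝ (Fin N), ℂ), Comparison C p s t (f : EuclideanSpace ℝ (Fin N) → ℂ)) ∧
      (∀ f : EuclideanSpace ℝ (Fin N) → ℂ, Measurable f → Comparison C p s t f) := by
  have hp0 : 0 < p := by linarith
  have hκ : 0 < 1 - (2:ℝ) ^ (-p) := by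
    have : (2:ℝ) ^ (-p) < 1 := Real.rpow_lt_one_of_one_lt_of_neg (by norm_num) (by linarith)
    linarith
  set K1 : ℝ≥0∞ := 2 ^ p * (∫⁻ h in Pool.Agent.X86.GC.A N 0, Pool.Agent.X86.GC.wt N N h) *
    (ENNReal.ofReal (1 - 2 ^ (-p)))⁻¹ with hK1
  set K2 : ℝ≥0∞ := ENNReal.ofReal (2 ^ p * p * Real.log 2 / θ / (1 - 2 ^ (-p))) with hK2
  have hK1f : K1 ≠ ∞ := by
    apply ENNReal.mul_ne_top (ENNReal.mul_ne_top _ Pool.Agent.X86.GC.beta_fin.ne)
    · rw [ENNReal.inv_ne_top]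
      simpa using hκ
    · exact ENNReal.rpow_ne_top_of_nonneg hp0.le (by norm_num)
  set K : ℝ≥0∞ := K1 + K2 with hK
  have hKf : K ≠ ∞ := ENNReal.add_ne_top.mpr ⟨hK1f, ENNReal.ofReal_ne_top⟩
  have hKpf : K ^ (1 / p) ≠ ∞ := ENNReal.rpow_ne_top_of_nonneg (by positivity) hKf
  refine ⟨(K ^ (1 / p)).toReal + 1, by positivity, fun s t hs hst ht => ?_⟩
  have main : ∀ f : EuclideanSpace ℝ (Fin N) → ℂ, Measurable f →
      Comparison ((K ^ (1 / p)).toReal + 1) p s t f := by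
    intro f hf
    have h1 := Pool.Agent.X86.GC.main hf hN hp.le hθ hs hst ht
    have hms : 0 ≤ min s (1 - s) := by apply le_min <;> linarith
    have hmt : 0 ≤ min t (1 - t) := by apply le_min <;> linarith
    set Np : ℝ≥0∞ := ∫⁻ x, ‖f x‖ₑ ^ p with hNp
    set W : ℝ≥0∞ := ENNReal.ofReal (min t (1 - t)) * Pool.Agent.X86.GC.G f p t with hW
    have h2 : ENNReal.ofReal (min s (1 - s)) * Pool.Agent.X86.GC.G f p s ≤ K * (Np + W) := by
      refine h1.trans ?_
      rw [hK, add_mul]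
      calc K1 * Np + K2 * W ≤ K1 * (Np + W) + K2 * (Np + W) := by
            gcongr
            · exact le_self_add
            · exact le_add_self
        _ = _ := rfl
    have hN2 : eLpNorm f (ENNReal.ofReal p) volume = Np ^ (1 / p) := by
      rw [eLpNorm_eq_lintegral_rpow_enorm_toReal (by simpa using hp0) ENNReal.ofReal_ne_top,
        ENNReal.toReal_ofReal hp0.le]
    unfold Comparison
    rw [gagliardo_eq p s hp0.le, gagliardo_eq p t hp0.le, hN2,
      ← ENNReal.ofReal_rpow_of_nonneg hms (by positivity),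
      ← ENNReal.ofReal_rpow_of_nonneg hmt (by positivity),
      ← ENNReal.mul_rpow_of_nonneg _ _ (by positivity : (0:ℝ) ≤ 1 / p),
      ← ENNReal.mul_rpow_of_nonneg _ _ (by positivity : (0:ℝ) ≤ 1 / p)]
    calc (ENNReal.ofReal (min s (1 - s)) * Pool.Agent.X86.GC.G f p s) ^ (1 / p)
        ≤ (K * (Np + W)) ^ (1 / p) := ENNReal.rpow_le_rpow h2 (by positivity)
      _ = K ^ (1 / p) * (Np + W) ^ (1 / p) := ENNReal.mul_rpow_of_nonneg _ _ (by positivity)
      _ ≤ K ^ (1 / p) * (Np ^ (1 / p) + W ^ (1 / p)) := by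
          gcongr
          apply ENNReal.rpow_add_le_add_rpow _ _ (by positivity)
          rw [div_le_one hp0]; exact hp.le
      _ ≤ ENNReal.ofReal ((K ^ (1 / p)).toReal + 1) * (Np ^ (1 / p) + W ^ (1 / p)) := by
          gcongr
          rw [ENNReal.le_ofReal_iff_toReal_le hKpf (by positivity)]
          linarith
  exact ⟨fun f => main f f.continuous.measurable, main⟩

end Pool.Agent.Results.MP_95ea62_an.UniformComparison
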